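import Pool.Agent.helper81.LA.Spec

/-!
# la:LM2 (MP_70a088_an): the limit chart
-/

set_option autoImplicit false

open Complex Metric Set Filter Topology MeasureTheory
open JX

noncomputable section

namespace LAT

theorem LM2_aes (μ g : ℂ → ℂ) (gk : ℕ → ℂ → ℂ) (x c : ℂ) (rk : ℕ → ℝ) (hLM1 : LM1_stmt) (hm : Measurable μ) (hb : ∀ z, ‖μ z‖ ≤ 1)
    (hmu : Tendsto (fun k => ∫⁻ z in ball (0 : ℂ) 1, ENNReal.ofReal ‖μ (x + rk k * z) - c‖) atTop (𝓝 0))
    (hg : DifferentiableOn ℂ g (ball 0 1)) (hgi : InjOn g (ball 0 1))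
    (hgk : ∀ k, DifferentiableOn ℂ (gk k) (ball 0 1) ∧ InjOn (gk k) (ball 0 1)) (hlu : TendstoLocallyUniformlyOn gk g atTop (ball 0 1))
    (heq : ∀ k, ∀ᵐ z : ℂ, z ∈ ball (0 : ℂ) 1 → μ (gk k z) * (starRingEnd ℂ) (deriv (gk k) z) = μ (x + rk k * z) * deriv (gk k) z)
    (s : ℝ) (hs : s ∈ Ioo (0 : ℝ) 1) :
    ∀ᵐ z : ℂ, z ∈ ball (0 : ℂ) s → μ (g z) * (starRingEnd ℂ) (deriv g z) = c * deriv g z := by
  have hsub : closedBall (0 : ℂ) s ⊆ ball 0 1 := closedBall_subset_ball hs.2
  have hsub' : ball (0 : ℂ) s ⊆ ball 0 1 := ball_subset_ball hs.2.le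
  -- derivatives
  have hdlu : TendstoLocallyUniformlyOn (deriv ∘ gk) (deriv g) atTop (ball 0 1) :=
    hlu.deriv (Eventually.of_forall fun k => (hgk k).1) isOpen_ball
  have hdu : TendstoUniformlyOn (deriv ∘ gk) (deriv g) atTop (closedBall 0 s) :=
    (tendstoLocallyUniformlyOn_iff_forall_isCompact isOpen_ball).1 hdlu _ hsub (isCompact_closedBall 0 s)
  -- bound of the derivative
  have hcd : ContinuousOn (deriv g) (ball 0 1) := (hg.deriv isOpen_ball).continuousOn
  obtain ⟨M, hM⟩ := (isCompact_closedBall (0 : ℂ) s).exists_bound_of_continuousOn (hcd.mono hsub)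
  have hM0 : 0 ≤ M := le_trans (norm_nonneg _) (hM 0 (mem_closedBall_self hs.1.le))
  -- measurability
  have hmg : AEMeasurable g (volume.restrict (ball (0 : ℂ) s)) := (hg.continuousOn.mono hsub').aemeasurable measurableSet_ball
  have hmgk : ∀ k, AEMeasurable (gk k) (volume.restrict (ball (0 : ℂ) s)) := fun k => ((hgk k).1.continuousOn.mono hsub').aemeasurable measurableSet_ball
  have hmμg : AEMeasurable (fun z => μ (g z)) (volume.restrict (ball (0 : ℂ) s)) := hm.comp_aemeasurable hmg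
  have hmμgk : ∀ k, AEMeasurable (fun z => μ (gk k z)) (volume.restrict (ball (0 : ℂ) s)) := fun k => hm.comp_aemeasurable (hmgk k)
  have hmF : AEMeasurable (fun z => ENNReal.ofReal ‖μ (g z) * (starRingEnd ℂ) (deriv g z) - c * deriv g z‖) (volume.restrict (ball (0 : ℂ) s)) := by
    apply AEMeasurable.ennreal_ofReal
    apply AEMeasurable.norm
    apply AEMeasurable.sub
    · exact hmμg.mul ((Complex.continuous_conj.measurable.comp (measurable_deriv g)).aemeasurable)
    · exact (measurable_const.mul (measurable_deriv g)).aemeasurable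
  -- bounds of the integral
  set V : ENNReal := volume (ball (0 : ℂ) s) with hV
  have hVt : V ≠ ⊤ := measure_ball_lt_top.ne
  have key : ∀ ε > (0 : ℝ), ∫⁻ z in ball (0 : ℂ) s, ENNReal.ofReal ‖μ (g z) * (starRingEnd ℂ) (deriv g z) - c * deriv g z‖ ≤ ENNReal.ofReal (2 * ε) * V := by
    intro ε hε
    have h1 : ∀ᶠ k in atTop, ∫⁻ z in ball (0 : ℂ) s, ENNReal.ofReal ‖μ (g z) * (starRingEnd ℂ) (deriv g z) - c * deriv g z‖ ≤
        ENNReal.ofReal M * (∫⁻ z in ball (0 : ℂ) s, ENNReal.ofReal ‖μ (gk k z) - μ (g z)‖) + ENNReal.ofReal (2 * ε) * V +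
          ENNReal.ofReal M * (∫⁻ z in ball (0 : ℂ) 1, ENNReal.ofReal ‖μ (x + rk k * z) - c‖) := by
      have h2 := Metric.tendstoUniformlyOn_iff.1 hdu ε hε
      filter_upwards [h2] with k hk
      have hpt : ∀ᵐ z ∂(volume.restrict (ball (0 : ℂ) s)), ENNReal.ofReal ‖μ (g z) * (starRingEnd ℂ) (deriv g z) - c * deriv g z‖ ≤
          (ENNReal.ofReal M * ENNReal.ofReal ‖μ (gk k z) - μ (g z)‖ + ENNReal.ofReal (2 * ε)) + ENNReal.ofReal M * ENNReal.ofReal ‖μ (x + rk k * z) - c‖ := by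
        rw [ae_restrict_iff' measurableSet_ball]
        filter_upwards [heq k] with z hz hzs
        have e1 := hz (hsub' hzs)
        have e2 : ‖deriv g z‖ ≤ M := hM z (ball_subset_closedBall hzs)
        have e3 : ‖deriv g z - deriv (gk k) z‖ < ε := by
          have := hk z (ball_subset_closedBall hzs)
          rwa [dist_eq_norm] at this
        rw [← ENNReal.ofReal_mul hM0, ← ENNReal.ofReal_mul hM0, ← ENNReal.ofReal_add (by positivity) (by positivity),
          ← ENNReal.ofReal_add (by positivity) (by positivity)]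
        apply ENNReal.ofReal_le_ofReal
        have e4 : μ (g z) * (starRingEnd ℂ) (deriv g z) - c * deriv g z =
            (μ (g z) - μ (gk k z)) * (starRingEnd ℂ) (deriv g z) + μ (gk k z) * (starRingEnd ℂ) (deriv g z - deriv (gk k) z)
              + μ (x + rk k * z) * (deriv (gk k) z - deriv g z) + (μ (x + rk k * z) - c) * deriv g z := by
          rw [map_sub]
          linear_combination e1
        rw [e4]
        have n1 : ‖(μ (g z) - μ (gk k z)) * (starRingEnd ℂ) (deriv g z)‖ ≤ M * ‖μ (gk k z) - μ (g z)‖ := by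
          rw [norm_mul, Complex.norm_conj, norm_sub_rev, mul_comm]
          exact mul_le_mul_of_nonneg_right e2 (norm_nonneg _)
        have n2 : ‖μ (gk k z) * (starRingEnd ℂ) (deriv g z - deriv (gk k) z)‖ ≤ ε := by
          rw [norm_mul, Complex.norm_conj]
          calc ‖μ (gk k z)‖ * ‖deriv g z - deriv (gk k) z‖ ≤ 1 * ‖deriv g z - deriv (gk k) z‖ := mul_le_mul_of_nonneg_right (hb _) (norm_nonneg _)
            _ ≤ ε := by rw [one_mul]; exact e3.le
        have n3 : ‖μ (x + rk k * z) * (deriv (gk k) z - deriv g z)‖ ≤ ε := by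
          rw [norm_mul, norm_sub_rev (deriv (gk k) z)]
          calc ‖μ (x + rk k * z)‖ * ‖deriv g z - deriv (gk k) z‖ ≤ 1 * ‖deriv g z - deriv (gk k) z‖ := mul_le_mul_of_nonneg_right (hb _) (norm_nonneg _)
            _ ≤ ε := by rw [one_mul]; exact e3.le
        have n4 : ‖(μ (x + rk k * z) - c) * deriv g z‖ ≤ M * ‖μ (x + rk k * z) - c‖ := by
          rw [norm_mul, mul_comm]
          exact mul_le_mul_of_nonneg_right e2 (norm_nonneg _)
        have t1 := norm_add_le ((μ (g z) - μ (gk k z)) * (starRingEnd ℂ) (deriv g z) + μ (gk k z) * (starRingEnd ℂ) (deriv g z - deriv (gk k) z)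
              + μ (x + rk k * z) * (deriv (gk k) z - deriv g z)) ((μ (x + rk k * z) - c) * deriv g z)
        have t2 := norm_add_le ((μ (g z) - μ (gk k z)) * (starRingEnd ℂ) (deriv g z) + μ (gk k z) * (starRingEnd ℂ) (deriv g z - deriv (gk k) z))
              (μ (x + rk k * z) * (deriv (gk k) z - deriv g z))
        have t3 := norm_add_le ((μ (g z) - μ (gk k z)) * (starRingEnd ℂ) (deriv g z)) (μ (gk k z) * (starRingEnd ℂ) (deriv g z - deriv (gk k) z))
        linarith
      have m1 : AEMeasurable (fun z => ENNReal.ofReal M * ENNReal.ofReal ‖μ (gk k z) - μ (g z)‖) (volume.restrict (ball (0 : ℂ) s)) :=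
        (((hmμgk k).sub hmμg).norm.ennreal_ofReal).const_mul _
      have m2 : AEMeasurable (fun z => ENNReal.ofReal M * ENNReal.ofReal ‖μ (gk k z) - μ (g z)‖ + ENNReal.ofReal (2 * ε)) (volume.restrict (ball (0 : ℂ) s)) :=
        m1.add aemeasurable_const
      calc ∫⁻ z in ball (0 : ℂ) s, ENNReal.ofReal ‖μ (g z) * (starRingEnd ℂ) (deriv g z) - c * deriv g z‖
          ≤ ∫⁻ z in ball (0 : ℂ) s, (ENNReal.ofReal M * ENNReal.ofReal ‖μ (gk k z) - μ (g z)‖ + ENNReal.ofReal (2 * ε)) + ENNReal.ofReal M * ENNReal.ofReal ‖μ (x + rk k * z) - c‖ :=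
            lintegral_mono_ae hpt
        _ = ENNReal.ofReal M * (∫⁻ z in ball (0 : ℂ) s, ENNReal.ofReal ‖μ (gk k z) - μ (g z)‖) + ENNReal.ofReal (2 * ε) * V +
          ENNReal.ofReal M * (∫⁻ z in ball (0 : ℂ) s, ENNReal.ofReal ‖μ (x + rk k * z) - c‖) := by
            rw [lintegral_add_left' m2, lintegral_add_left' m1, lintegral_const,
              Measure.restrict_apply_univ, lintegral_const_mul' _ _ ENNReal.ofReal_ne_top, lintegral_const_mul' _ _ ENNReal.ofReal_ne_top]
        _ ≤ _ := by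
            gcongr
    have h3 := hLM1 μ g gk hm hb hg hgi hgk hlu s hs
    have h4 : Tendsto (fun k => ENNReal.ofReal M * (∫⁻ z in ball (0 : ℂ) s, ENNReal.ofReal ‖μ (gk k z) - μ (g z)‖) + ENNReal.ofReal (2 * ε) * V +
          ENNReal.ofReal M * (∫⁻ z in ball (0 : ℂ) 1, ENNReal.ofReal ‖μ (x + rk k * z) - c‖)) atTop (𝓝 (ENNReal.ofReal M * 0 + ENNReal.ofReal (2 * ε) * V + ENNReal.ofReal M * 0)) := by
      apply Tendsto.add
      · apply Tendsto.add
        · exact ENNReal.Tendsto.const_mul h3 (Or.inr ENNReal.ofReal_ne_top)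
        · exact tendsto_const_nhds
      · exact ENNReal.Tendsto.const_mul hmu (Or.inr ENNReal.ofReal_ne_top)
    rw [mul_zero, zero_add, add_zero] at h4
    exact ge_of_tendsto h4 h1
  have hzero : ∫⁻ z in ball (0 : ℂ) s, ENNReal.ofReal ‖μ (g z) * (starRingEnd ℂ) (deriv g z) - c * deriv g z‖ = 0 := by
    apply le_antisymm _ bot_le
    have h5 : Tendsto (fun ε : ℝ => ENNReal.ofReal (2 * ε) * V) (𝓝[>] 0) (𝓝 0) := by
      have h6 : Tendsto (fun ε : ℝ => ENNReal.ofReal (2 * ε) * V) (𝓝 0) (𝓝 (ENNReal.ofReal (2 * 0) * V)) := by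
        apply ENNReal.Tendsto.mul_const _ (Or.inr hVt)
        exact ((ENNReal.continuous_ofReal.comp (continuous_const.mul continuous_id)).tendsto 0)
      rw [mul_zero, ENNReal.ofReal_zero, zero_mul] at h6
      exact h6.mono_left nhdsWithin_le_nhds
    refine ge_of_tendsto h5 ?_
    filter_upwards [self_mem_nhdsWithin] with ε hε
    exact key ε hε
  have h7 := (lintegral_eq_zero_iff' hmF).1 hzero
  have h8 := (ae_restrict_iff' measurableSet_ball).1 h7
  filter_upwards [h8] with z hz hzs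
  have h9 := hz hzs
  simp only [Pi.zero_apply, ENNReal.ofReal_eq_zero] at h9
  exact sub_eq_zero.1 (norm_le_zero_iff.1 h9)

theorem LM2 (hLM1 : LM1_stmt) : LM2_stmt := by
  intro μ g gk x c rk hm hb hc hrk hmu hg hgi hgk hlu heq
  -- almost everywhere on the unit disc
  have hae : ∀ᵐ z : ℂ, z ∈ ball (0 : ℂ) 1 → μ (g z) * (starRingEnd ℂ) (deriv g z) = c * deriv g z := by
    have h1 : ∀ n : ℕ, ∀ᵐ z : ℂ, z ∈ ball (0 : ℂ) (1 - 1 / ((n : ℝ) + 2)) → μ (g z) * (starRingEnd ℂ) (deriv g z) = c * deriv g z := by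
      intro n
      have hn : (0 : ℝ) < (n : ℝ) + 2 := by positivity
      have hn' : 1 / ((n : ℝ) + 2) < 1 := by
        rw [div_lt_one hn]
        have : (0 : ℝ) ≤ n := Nat.cast_nonneg n
        linarith
      have hn'' : 0 < 1 / ((n : ℝ) + 2) := by positivity
      exact LM2_aes μ g gk x c rk hLM1 hm hb hmu hg hgi hgk hlu heq _ ⟨by linarith, by linarith⟩
    rw [← ae_all_iff] at h1
    filter_upwards [h1] with z hz hz1
    rw [mem_ball, dist_zero_right] at hz1
    obtain ⟨n, hn⟩ := exists_nat_gt (1 / (1 - ‖z‖))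
    apply hz n
    rw [mem_ball, dist_zero_right]
    have h2 : 0 < 1 - ‖z‖ := by linarith
    have h3 : 1 / ((n : ℝ) + 2) < 1 - ‖z‖ := by
      rw [div_lt_iff₀ (by positivity)]
      rw [div_lt_iff₀ h2] at hn
      nlinarith
    linarith
  -- the rotation
  obtain ⟨κ, hκ⟩ : ∃ κ : ℂ, κ ^ 2 = c := IsAlgClosed.exists_pow_nat_eq c (by norm_num)
  have hκ1 : ‖κ‖ = 1 := by
    have : ‖κ‖ ^ 2 = 1 := by rw [← norm_pow, hκ, hc]
    exact (pow_eq_one_iff_of_nonneg (norm_nonneg _) (by norm_num)).1 this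
  have hκ0 : κ ≠ 0 := by
    intro h
    rw [h, norm_zero] at hκ1
    exact zero_ne_one hκ1
  have hmaps : MapsTo (fun z : ℂ => κ * z) (ball 0 1) (ball 0 1) := by
    intro z hz
    rw [mem_ball, dist_zero_right] at hz ⊢
    rwa [norm_mul, hκ1, one_mul]
  refine ⟨fun z => g (κ * z), ?_, ?_, ⟨κ, hκ1, fun z => rfl⟩, ?_⟩
  · exact hg.comp (differentiableOn_id.const_mul κ) hmaps
  · intro z hz w hw h
    exact mul_left_cancel₀ hκ0 (hgi (hmaps hz) (hmaps hw) h)
  · have hq : Measure.QuasiMeasurePreserving (fun z : ℂ => κ * z) volume volume := by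
      have := (rotation ⟨κ, mem_sphere_zero_iff_norm.2 hκ1⟩).measurePreserving.quasiMeasurePreserving
      exact this
    have h1 := hq.ae hae
    filter_upwards [h1] with z hz hzb
    have h2 := hz (hmaps hzb)
    have hd : deriv (fun w => g (κ * w)) z = κ * deriv g (κ * z) := by
      have h3 : HasDerivAt g (deriv g (κ * z)) (κ * z) := ((hg _ (hmaps hzb)).differentiableAt (isOpen_ball.mem_nhds (hmaps hzb))).hasDerivAt
      have h4 : HasDerivAt (fun w : ℂ => κ * w) κ z := by simpa using (hasDerivAt_id z).const_mul κ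
      have h5 := h3.comp z h4
      rw [mul_comm κ]
      exact h5.deriv
    rw [hd, map_mul]
    have h6 : (starRingEnd ℂ) κ * κ = 1 := by
      rw [mul_comm, Complex.mul_conj, Complex.normSq_eq_norm_sq, hκ1]
      norm_num
    calc μ (g (κ * z)) * ((starRingEnd ℂ) κ * (starRingEnd ℂ) (deriv g (κ * z))) = (starRingEnd ℂ) κ * (μ (g (κ * z)) * (starRingEnd ℂ) (deriv g (κ * z))) := by ring
      _ = (starRingEnd ℂ) κ * (c * deriv g (κ * z)) := by rw [h2]
      _ = ((starRingEnd ℂ) κ * κ) * (κ * deriv g (κ * z)) := by rw [← hκ]; ring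
      _ = κ * deriv g (κ * z) := by rw [h6, one_mul]

end LAT

end
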